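import Pool.Agent.H16.ORB.C

/-!
# MP_5182ad_lc, oracle barrier, row CLN: replacement of a heavy set
-/

open Classical Finset

namespace Pool.ORB

theorem cln (h1 : CL1Stmt) : CLNStmt := by
  intro E Nd Sg W _ _ _ D s g
  induction g using Finset.induction_on with
  | empty =>
    intro _ _ _
    refine ⟨∅, rfl, fun f hf => absurd hf (notMem_empty f), fun a _ f hf =>
      absurd hf (notMem_empty f), ?_⟩
    rw [union_empty]
  | insert f g hfg ih =>
    intro hfn hdis hval
    have hsub : g ⊆ insert f g := subset_insert f g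
    have hdsub : dm g ⊆ dm (insert f g) := image_subset_image hsub
    obtain ⟨G, hG1, hG2, hG3, hG4⟩ := ih
      (fun a ha b hb h => hfn a (hsub ha) b (hsub hb) h)
      (disjoint_of_subset_left hdsub hdis) (fun a ha => hval a (hsub ha))
    have hff : f ∈ insert f g := mem_insert_self f g
    obtain ⟨x, hx⟩ := hval f hff
    have hfd : f.1 ∉ dm g := by
      intro h
      obtain ⟨k, hk, hkf⟩ := mem_image.1 h
      have e := hfn k (hsub hk) f hff hkf
      rw [e] at hk
      exact hfg hk
    have hfG : f.1 ∉ dm G := by
      rw [hG1]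
      exact hfd
    have hfρ : f.1 ∉ dm s.ρ := disjoint_left.1 hdis (mem_image.2 ⟨f, hff, rfl⟩)
    have hnot : f.1 ∉ dm (s.ρ ∪ G) := by
      unfold dm
      rw [image_union, mem_union]
      rintro (h | h)
      · exact hfρ h
      · exact hfG h
    obtain ⟨w, hw, hpsi⟩ := h1 D ⟨s.ρ ∪ G, s.F⟩ f.1 (D.V f.1 x) hnot (D.big f.1 x)
    refine ⟨insert (f.1, w, false) G, ?_, ?_, ?_, ?_⟩
    · unfold dm
      rw [image_insert, image_insert]
      change insert f.1 (dm G) = insert f.1 (dm g)
      rw [hG1]
    · intro a ha b hb hab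
      rcases mem_insert.1 ha with ha | ha <;> rcases mem_insert.1 hb with hb | hb
      · rw [ha, hb]
      · exfalso
        rw [ha] at hab
        exact hfG (mem_image.2 ⟨b, hb, hab.symm⟩)
      · exfalso
        rw [hb] at hab
        exact hfG (mem_image.2 ⟨a, ha, hab⟩)
      · exact hG2 a ha b hb hab
    · intro a ha k hk
      rcases mem_insert.1 hk with hk | hk
      · rw [hk]
        have h2 : f.2.1 ∈ D.V f.1 (a f.1) := ha f hff
        have h3 : a f.1 = x := by
          by_contra hne
          exact disjoint_left.1 (D.disj f.1 (a f.1) x hne) h2 hx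
        change w ∈ D.V f.1 (a f.1)
        rw [h3]
        exact hw
      · exact hG3 a (fun k' hk' => ha k' (hsub hk')) k hk
    · rw [union_insert]
      exact le_trans hpsi hG4

end Pool.ORB
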