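import Pool.Agent.H16.ORB.C

/-!
# MP_5182ad_lc, oracle barrier, row CVS: the cover survives a challenge step
-/

open Classical Finset

namespace Pool.ORB

theorem cvs (h1 : KIDStmt) : CVSStmt := by
  intro E Nd Sg W _ _ _ D σ Ws Y ρ κ t F hFn hch hρκ hcov U hU hκU
  obtain ⟨l, hlF, hl1, hl2⟩ := hcov U hU (hρκ.trans hκU)
  have hsub : κ ∪ l.2 ⊆ U := union_subset hκU hl2
  have hfn : Fn (κ ∪ l.2) := fun f hf g hg h => hFn U hU f (hsub hf) g (hsub hg) h
  by_cases hc : D.chal σ l.1 t (ans (κ ∪ l.2)) = true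
  · have hq : ∃ x ∈ D.qs σ l.1 t (ans (κ ∪ l.2)),
        ans U x.1 x.2 ≠ ans (κ ∪ l.2) x.1 x.2 := by
      by_contra hcon
      have hcon' : ∀ x ∈ D.qs σ l.1 t (ans (κ ∪ l.2)),
          ans U x.1 x.2 = ans (κ ∪ l.2) x.1 x.2 := by
        intro x hx
        by_contra hne
        exact hcon ⟨x, hx, hne⟩
      have hf := hch U hU t
      rw [← hl1] at hf
      cases σ
      · have h := D.loc t l.1 (ans (κ ∪ l.2)) (ans U) hcon'
        have e1 : D.chal false l.1 t (ans U) = D.R t l.1 (ans U) := rfl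
        have e2 : D.chal false l.1 t (ans (κ ∪ l.2)) = D.R t l.1 (ans (κ ∪ l.2)) := rfl
        rw [e1, h, ← e2, hc] at hf
        cases hf
      · have h := D.loc l.1 t (ans (κ ∪ l.2)) (ans U) hcon'
        have e1 : D.chal true l.1 t (ans U) = !(D.R l.1 t (ans U)) := rfl
        have e2 : D.chal true l.1 t (ans (κ ∪ l.2)) = !(D.R l.1 t (ans (κ ∪ l.2))) := rfl
        rw [e1, h, ← e2, hc] at hf
        cases hf
    obtain ⟨x, hx, hne⟩ := hq
    have hmem : x.1 ∈ dm (κ ∪ l.2) → ∀ b, ((x.1, x.2, b) ∈ U ↔ (x.1, x.2, b) ∈ κ ∪ l.2) := by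
      intro hd b
      obtain ⟨f, hf, hfx⟩ := mem_image.1 hd
      refine ⟨fun hb => ?_, fun hb => hsub hb⟩
      have e := hFn U hU f (hsub hf) (x.1, x.2, b) hb hfx
      rw [← e]
      exact hf
    have hx1 : x.1 ∉ dm (κ ∪ l.2) := by
      intro hd
      apply hne
      unfold ans
      simp only [hmem hd true, hmem hd false]
    have hno : ∀ b, (x.1, x.2, b) ∉ κ ∪ l.2 := fun b hb => hx1 (mem_image.2 ⟨_, hb, rfl⟩)
    have hnone : ans (κ ∪ l.2) x.1 x.2 = none := by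
      unfold ans
      rw [if_neg (hno true), if_neg (hno false)]
    have hex : ∃ b, (x.1, x.2, b) ∈ U := by
      by_contra hcon
      apply hne
      rw [hnone]
      unfold ans
      rw [if_neg (fun h => hcon ⟨true, h⟩), if_neg (fun h => hcon ⟨false, h⟩)]
    obtain ⟨b, hb⟩ := hex
    refine ⟨(l.1, insert (x.1, x.2, b) l.2), ?_, hl1, insert_subset hb hl2⟩
    unfold Dat.stp
    rw [mem_biUnion]
    refine ⟨l, hlF, ?_⟩
    rw [if_pos hfn, if_pos hc]
    exact ((h1 D σ κ t).2.1 l _).2 ⟨(x.1, x.2, b), hx1, hx, rfl⟩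
  · refine ⟨l, ?_, hl1, hl2⟩
    unfold Dat.stp
    rw [mem_biUnion]
    refine ⟨l, hlF, ?_⟩
    rw [if_pos hfn, if_neg hc]
    exact mem_singleton_self l

end Pool.ORB
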