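import Mathlib
import Pool.Agent.H16.ORB.W

/-!
# MP_5182ad_lc, oracle barrier: row LIM (the limit of the stages)
-/

open Polynomial Finset

namespace Pool.ORB

/-- States of the construction: a legal world and a level. -/
private abbrev StL (en : Enu) : Type := {p : Wo × ℕ // Legal en p.1}

theorem lim (h1 : STGStmt) (h2 : BASStmt) (h3 : ORWStmt) (h4 : ACCStmt) (h5 : STRStmt) :
    LIMStmt := by
  intro en
  obtain ⟨_, _, hO3⟩ := h3
  obtain ⟨_, hA2, _⟩ := h4
  obtain ⟨hS1, _, _, _, hS5⟩ := h5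
  obtain ⟨ω0, hω0⟩ := h2 en
  have hst : ∀ (k : ℕ) (s : StL en), ∃ s' : StL en, s.1.2 < s'.1.2 ∧ Agr s.1.2 s.1.1 s'.1.1 ∧
      ∀ ω'' : Wo, Legal en ω'' → Agr s'.1.2 s'.1.1 ω'' →
        Fail (en k).1 (en k).2.1 (en k).2.2 (orc ω'') := by
    intro k s
    obtain ⟨ω', ℓ', hL, hl, hA, hF⟩ := h1 en (en k).1 (en k).2.1 (en k).2.2 s.1.1 s.1.2 s.2
    exact ⟨⟨(ω', ℓ'), hL⟩, hl, hA, hF⟩
  choose nx hnx using hst
  let S : ℕ → StL en := fun k => Nat.rec ⟨(ω0, 0), hω0⟩ (fun j s => nx j s) k
  have hS0 : ∀ k, S (k + 1) = nx k (S k) := fun k => rfl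
  have hlt : ∀ k, (S k).1.2 < (S (k + 1)).1.2 := by
    intro k
    rw [hS0]
    exact (hnx k (S k)).1
  have hge : ∀ k, k ≤ (S k).1.2 := by
    intro k
    induction k with
    | zero => exact Nat.zero_le _
    | succ k ih => exact lt_of_le_of_lt ih (hlt k)
  have hmono : ∀ k j, (S k).1.2 ≤ (S (k + j)).1.2 := by
    intro k j
    induction j with
    | zero => exact le_rfl
    | succ j ih => exact ih.trans (hlt (k + j)).le
  have hag : ∀ k j, Agr (S k).1.2 (S k).1.1 (S (k + j)).1.1 := by
    intro k j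
    induction j with
    | zero => intro e _; rfl
    | succ j ih =>
      intro e he
      rw [ih e he]
      have h := (hnx (k + j) (S (k + j))).2.1 e (he.trans (hmono k j))
      rw [h]
      rfl
  have hag' : ∀ k m, k ≤ m → Agr (S k).1.2 (S k).1.1 (S m).1.1 := by
    intro k m hkm
    obtain ⟨j, rfl⟩ := Nat.exists_eq_add_of_le hkm
    exact hag k j
  let ω : Wo := fun e => (S (lev e)).1.1 e
  have hlim : ∀ k, Agr (S k).1.2 (S k).1.1 ω := by
    intro k e he
    change (S k).1.1 e = (S (lev e)).1.1 e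
    rcases le_total k (lev e) with h | h
    · exact hag' k (lev e) h e he
    · exact (hag' (lev e) k h e (hge _)).symm
  have hleg : Legal en ω := by
    refine ⟨?_, ?_, ?_⟩
    · intro e w b h
      exact (S (lev e)).2.wf e w b h
    · intro i z
      exact (S (lev (i + 1, z))).2.tot i z
    · intro i n
      set A := (al en i).eval n with hA
      set K := (i + 1) + 3 * (2 * n + 1 + A) + 3 + A with hK
      obtain ⟨a, ha, hx⟩ := (S K).2.leg i n
      refine ⟨a, ha, ?_⟩
      intro x hxn
      have hlev : lev (i + 1, pair x a) ≤ (S K).1.2 := by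
        refine le_trans ?_ (hge K)
        have h := (hS5 (i + 1, pair x a)).2.1
        have h' := hS1 x a
        simp only at h
        rw [h', hxn, ha] at h
        omega
      have hAO : AgO ((al en i).eval x.length) (orc (S K).1.1) (orc ω) := by
        refine hO3 _ _ _ ?_
        intro e he
        refine hlim K e (he.trans ?_)
        rw [hxn]
        refine le_trans ?_ (hge K)
        omega
      rw [← hA2 en i _ _ x hAO, ← hx x hxn, hlim K _ hlev]
  refine ⟨ω, hleg, ?_⟩
  intro k
  refine (hnx k (S k)).2.2 ω hleg ?_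
  have h := hlim (k + 1)
  rw [hS0] at h
  exact h

end Pool.ORB
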