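import Pool.Agent.H16.ORB.C

/-!
# MP_5182ad_lc, oracle barrier, row MMV: the number of main moves
-/

open Classical Finset

namespace Pool.ORB

theorem mmv (h1 : LENStmt) : MMVStmt := by
  intro E Nd Sg W _ _ _ D s t hI
  have hp : (1 : ℝ) ≤ (D.p : ℝ) := by exact_mod_cast D.hp
  have hM : 0 ≤ D.M := by
    unfold Dat.M
    positivity
  have hpsi : D.Psi s ≤ D.M := by
    have h2 : 0 ≤ (t : ℝ) * (D.M / (2 * (Tp D.p : ℝ))) := by positivity
    linarith [hI.psi]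
  have hbase : (0 : ℝ) < 1 / (2 * (D.p : ℝ)) := by positivity
  have hbase1 : 1 / (2 * (D.p : ℝ)) ≤ 1 := by
    rw [div_le_one (by linarith)]
    linarith
  have hone : ∀ σ : Bool, ((((s.F (!σ)).filter (fun l => D.MainOK s σ l)).card : ℕ) : ℝ) ≤
      2 ^ D.p * (2 * (D.p : ℝ)) ^ Hp D.p := by
    intro σ
    have h2 : ((((s.F (!σ)).filter (fun l => D.MainOK s σ l)).card : ℕ) : ℝ) *
        (1 / (2 * (D.p : ℝ))) ^ Hp D.p ≤ 2 ^ D.p := by
      calc ((((s.F (!σ)).filter (fun l => D.MainOK s σ l)).card : ℕ) : ℝ) *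
          (1 / (2 * (D.p : ℝ))) ^ Hp D.p
          = ∑ l ∈ (s.F (!σ)).filter (fun l => D.MainOK s σ l),
            (1 / (2 * (D.p : ℝ))) ^ Hp D.p := by rw [sum_const, nsmul_eq_mul]
        _ ≤ ∑ l ∈ (s.F (!σ)).filter (fun l => D.MainOK s σ l),
            (1 / (2 * (D.p : ℝ))) ^ l.2.card := by
            refine sum_le_sum fun l hl => ?_
            obtain ⟨ha, hb, hc, hd⟩ := mem_filter.1 hl
            exact pow_le_pow_of_le_one hbase.le hbase1 (h1 D s (!σ) l hpsi ha hc hd)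
        _ ≤ ∑ l ∈ s.F (!σ), (1 / (2 * (D.p : ℝ))) ^ l.2.card :=
            sum_le_sum_of_subset_of_nonneg (filter_subset _ _) fun l _ _ => by positivity
        _ ≤ 2 ^ D.p := hI.num (!σ)
    have h3 : (0 : ℝ) < (2 * (D.p : ℝ)) ^ Hp D.p := by positivity
    have h4 : (1 / (2 * (D.p : ℝ))) ^ Hp D.p * (2 * (D.p : ℝ)) ^ Hp D.p = 1 := by
      rw [← mul_pow, one_div_mul_cancel (by positivity), one_pow]
    calc ((((s.F (!σ)).filter (fun l => D.MainOK s σ l)).card : ℕ) : ℝ)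
        = ((((s.F (!σ)).filter (fun l => D.MainOK s σ l)).card : ℕ) : ℝ) *
          (1 / (2 * (D.p : ℝ))) ^ Hp D.p * (2 * (D.p : ℝ)) ^ Hp D.p := by
          rw [mul_assoc, h4, mul_one]
      _ ≤ 2 ^ D.p * (2 * (D.p : ℝ)) ^ Hp D.p := mul_le_mul_of_nonneg_right h2 h3.le
  refine ⟨(univ : Finset Bool).biUnion fun σ =>
    ((s.F (!σ)).filter (fun l => D.MainOK s σ l)).image (fun l => (σ, l)), ?_, ?_⟩
  · rintro ⟨σ, l⟩
    rw [mem_biUnion]
    constructor
    · rintro ⟨τ, -, h⟩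
      obtain ⟨l', hl', he⟩ := mem_image.1 h
      obtain ⟨rfl, rfl⟩ := Prod.mk.inj he
      exact (mem_filter.1 hl').2
    · intro h
      exact ⟨σ, mem_univ _, mem_image.2 ⟨l, mem_filter.2 ⟨h.1, h⟩, rfl⟩⟩
  · have h5 : ((((univ : Finset Bool).biUnion fun σ =>
        ((s.F (!σ)).filter (fun l => D.MainOK s σ l)).image (fun l => (σ, l))).card : ℕ) : ℝ) ≤
        ∑ σ : Bool, ((((s.F (!σ)).filter (fun l => D.MainOK s σ l)).card : ℕ) : ℝ) := by
      have h6 := card_biUnion_le (s := (univ : Finset Bool)) (t := fun σ =>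
        ((s.F (!σ)).filter (fun l => D.MainOK s σ l)).image (fun l => (σ, l)))
      have h7 : ∑ σ : Bool, (((s.F (!σ)).filter (fun l => D.MainOK s σ l)).image
          (fun l => (σ, l))).card ≤ ∑ σ : Bool,
          ((s.F (!σ)).filter (fun l => D.MainOK s σ l)).card :=
        sum_le_sum fun σ _ => card_image_le
      exact_mod_cast h6.trans h7
    have h8 : ∑ σ : Bool, ((((s.F (!σ)).filter (fun l => D.MainOK s σ l)).card : ℕ) : ℝ) ≤
        ∑ _σ : Bool, (2 ^ D.p * (2 * (D.p : ℝ)) ^ Hp D.p) := sum_le_sum fun σ _ => hone σ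
    rw [sum_const, nsmul_eq_mul] at h8
    have h9 : ((univ : Finset Bool).card : ℝ) = 2 := by simp
    rw [h9] at h8
    unfold Dat.C1
    linarith

end Pool.ORB
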